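import Pool.Agent.Q32.Idx.Defs
import Pool.Agent.Y21.FW.Zeros
import Pool.Agent.TH620.LS_ZR
import Pool.Agent.H307R2.Sg6

set_option autoImplicit false

/-!
# The sign of Hardy's function and the parity of the number of zeros
-/

namespace Pool.Agent.Q32.Idx

open Complex Filter Topology

lemma line_eq (t : ℝ) : (1 / 2 + I * t : ℂ) = 1 / 2 + t * I := by ring

lemma line_im (t : ℝ) : (1 / 2 + I * t : ℂ).im = t := by simp

lemma line_re (t : ℝ) : (1 / 2 + I * t : ℂ).re = 1 / 2 := by simp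

lemma phase_eq (t : ℝ) : phase t =
    Gammaℝ (1 / 2 + t * I) / (‖Gammaℝ (1 / 2 + t * I)‖ : ℂ) := by
  have hpi : (Real.pi : ℂ) ≠ 0 := by exact_mod_cast Real.pi_ne_zero
  set a : ℝ := Real.exp (-(1 / 4) * Real.log Real.pi) with ha
  have ha0 : 0 < a := Real.exp_pos _
  set E : ℂ := cexp (-(I * (t / 2) * Real.log Real.pi)) with hE
  set G : ℂ := Gamma (1 / 4 + I * t / 2) with hG
  have h1 : Gammaℝ (1 / 2 + t * I) = (a : ℂ) * E * G := by
    rw [Gammaℝ_def, Complex.cpow_def_of_ne_zero hpi, ← Complex.ofReal_log Real.pi_pos.le]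
    have e1 : (1 / 2 + (t : ℂ) * I) / 2 = 1 / 4 + I * t / 2 := by ring
    rw [e1, ← hG, ha, hE, Complex.ofReal_exp, ← Complex.exp_add]
    congr 2
    push_cast
    ring
  have hEn : ‖E‖ = 1 := by
    rw [hE, Complex.norm_exp]
    have : (-(I * (t / 2) * (Real.log Real.pi : ℂ))).re = 0 := by
      have e : -(I * (t / 2) * (Real.log Real.pi : ℂ)) = ((-(t / 2 * Real.log Real.pi) : ℝ) : ℂ) * I := by
        push_cast
        ring
      rw [e, Complex.mul_I_re, Complex.ofReal_im, neg_zero]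
    rw [this, Real.exp_zero]
  have hG0 : G ≠ 0 := by
    rw [hG]
    apply Gamma_ne_zero_of_re_pos
    simp
  have hGn : (‖G‖ : ℂ) ≠ 0 := by exact_mod_cast norm_ne_zero_iff.2 hG0
  have hac : (a : ℂ) ≠ 0 := by exact_mod_cast ha0.ne'
  rw [h1, norm_mul, norm_mul, hEn, Complex.norm_real, Real.norm_eq_abs, abs_of_pos ha0, mul_one]
  unfold phase
  rw [← hG, ← hE]
  push_cast
  field_simp

/-- Hardy's function is real -/
theorem Z_real (t : ℝ) : ((Z t : ℝ) : ℂ) = phase t * riemannZeta (1 / 2 + I * t) := by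
  unfold Z
  rw [phase_eq, line_eq]
  exact Pool.Agent.TH620.LS_ZR.main_conj t

theorem Z_cont : Continuous Z := by
  have h : Z = fun t : ℝ => (Gammaℝ (1 / 2 + t * Complex.I) /
      (‖Gammaℝ (1 / 2 + t * Complex.I)‖ : ℂ) * riemannZeta (1 / 2 + t * Complex.I)).re := by
    funext t
    unfold Z
    rw [phase_eq, line_eq]
  rw [h]
  exact Complex.continuous_re.comp Pool.Agent.TH620.LS_ZR.Z_cont

lemma gamma_ne (t : ℝ) : Gamma (1 / 4 + I * t / 2) ≠ 0 := by
  apply Gamma_ne_zero_of_re_pos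
  simp

lemma gamma_cont : Continuous fun t : ℝ => Gamma (1 / 4 + I * t / 2) := by
  rw [continuous_iff_continuousAt]
  intro t
  have h1 : ContinuousAt Gamma (1 / 4 + I * t / 2) := by
    refine (differentiableAt_Gamma _ fun m hm => ?_).continuousAt
    have := congrArg Complex.re hm
    simp at this
    have hm0 : (0 : ℝ) ≤ m := Nat.cast_nonneg m
    linarith
  exact ContinuousAt.comp (f := fun t : ℝ => (1 / 4 + I * t / 2 : ℂ)) h1 (by fun_prop)

lemma phase_cont : Continuous phase := by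
  unfold phase
  refine Continuous.mul (gamma_cont.div ?_ ?_) (by fun_prop)
  · exact Complex.continuous_ofReal.comp gamma_cont.norm
  · intro t
    rw [Complex.ofReal_ne_zero]
    exact norm_ne_zero_iff.mpr (gamma_ne t)

lemma phase_ne (t : ℝ) : phase t ≠ 0 := by
  unfold phase
  refine mul_ne_zero (div_ne_zero (gamma_ne t) ?_) (Complex.exp_ne_zero _)
  rw [Complex.ofReal_ne_zero]
  exact norm_ne_zero_iff.mpr (gamma_ne t)

theorem Z_zero_iff (t : ℝ) : Z t = 0 ↔ riemannZeta (1 / 2 + I * t) = 0 := by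
  rw [← Complex.ofReal_eq_zero, Z_real, mul_eq_zero]
  exact ⟨fun h => h.resolve_left (phase_ne t), Or.inr⟩

theorem Z_zero_neg : Z 0 < 0 := by
  have h1 : phase 0 = 1 := by
    unfold phase
    have e : (1 / 4 + I * ((0 : ℝ) : ℂ) / 2 : ℂ) = ((1 / 4 : ℝ) : ℂ) := by
      push_cast
      ring
    have e2 : (-(I * (((0 : ℝ) : ℂ) / 2) * (Real.log Real.pi : ℂ))) = 0 := by
      push_cast
      ring
    rw [e, e2, Complex.exp_zero, mul_one, Complex.Gamma_ofReal, Complex.norm_real, Real.norm_eq_abs,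
      abs_of_pos (Real.Gamma_pos_of_pos (by norm_num))]
    refine div_self ?_
    exact_mod_cast (Real.Gamma_pos_of_pos (by norm_num : (0:ℝ) < 1 / 4)).ne'
  unfold Z
  have e : (1 / 2 + I * ((0 : ℝ) : ℂ) : ℂ) = ((1 / 2 : ℝ) : ℂ) := by
    push_cast
    ring
  rw [h1, one_mul, e]
  exact (Pool.Agent.H307R2.zeta_neg (by norm_num) (by norm_num)).1

lemma line_ne (t : ℝ) : (1 / 2 + I * t : ℂ) ≠ 1 := by
  intro h
  have := congrArg Complex.re h
  norm_num at this

lemma Z_hasDerivAt (t : ℝ) (h : riemannZeta (1 / 2 + I * t) = 0) :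
    HasDerivAt Z (phase t * (deriv riemannZeta (1 / 2 + I * t) * I)).re t ∧
      (((phase t * (deriv riemannZeta (1 / 2 + I * t) * I)).re : ℝ) : ℂ) =
        phase t * (deriv riemannZeta (1 / 2 + I * t) * I) := by
  have hg : HasDerivAt (fun u : ℝ => riemannZeta (1 / 2 + I * u))
      (deriv riemannZeta (1 / 2 + I * t) * I) t := by
    have h1 : HasDerivAt (fun u : ℝ => (1 / 2 + I * u : ℂ)) I t := by
      have h2 : HasDerivAt (fun u : ℝ => (u : ℂ)) 1 t := Complex.ofRealCLM.hasDerivAt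
      simpa using (h2.const_mul I).const_add (1 / 2 : ℂ)
    exact HasDerivAt.comp (h₂ := riemannZeta) t
      (differentiableAt_riemannZeta (line_ne t)).hasDerivAt h1
  have hZc : HasDerivAt (fun u : ℝ => phase u * riemannZeta (1 / 2 + I * u))
      (phase t * (deriv riemannZeta (1 / 2 + I * t) * I)) t := by
    rw [hasDerivAt_iff_tendsto_slope] at hg ⊢
    have h3 : Tendsto phase (𝓝[≠] t) (𝓝 (phase t)) :=
      phase_cont.continuousAt.tendsto.mono_left nhdsWithin_le_nhds
    refine (h3.mul hg).congr fun u => ?_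
    rw [slope_def_module, slope_def_module, h, mul_zero, sub_zero, sub_zero]
    simp only [Complex.real_smul]
    ring
  have hre : HasDerivAt Z (phase t * (deriv riemannZeta (1 / 2 + I * t) * I)).re t := by
    have := (Complex.reCLM.hasFDerivAt.comp_hasDerivAt t hZc)
    exact this
  refine ⟨hre, ?_⟩
  have h4 : HasDerivAt (fun u : ℝ => ((Z u : ℝ) : ℂ))
      (((phase t * (deriv riemannZeta (1 / 2 + I * t) * I)).re : ℝ) : ℂ) t := hre.ofReal_comp
  have h5 : (fun u : ℝ => ((Z u : ℝ) : ℂ)) = fun u : ℝ => phase u * riemannZeta (1 / 2 + I * u) := by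
    funext u
    exact Z_real u
  rw [h5] at h4
  exact h4.unique hZc

/-- the local form of Hardy's function at a zero -/
theorem local_factor (g : ℝ) (hg : 0 < g) :
    ∃ W : ℝ → ℝ, ContinuousAt W g ∧ W g ≠ 0 ∧
      ∀ᶠ t in 𝓝 g, Z t = (t - g) ^ (mult (1 / 2 + I * g)) * W t := by
  set s₀ : ℂ := 1 / 2 + I * g with hs₀
  have hs1 : s₀ ≠ 1 := line_ne g
  have hs0 : s₀ ≠ 0 := by
    intro h
    have := congrArg Complex.re h
    rw [hs₀] at this
    norm_num at this
  have ha : AnalyticAt ℂ riemannZeta s₀ := Pool.Agent.Y21.FW.zeta_an hs1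
  have htop : analyticOrderAt riemannZeta s₀ ≠ ⊤ := by
    intro htop
    have hA : AnalyticOnNhd ℂ riemannZeta ({1}ᶜ : Set ℂ) := fun z hz => Pool.Agent.Y21.FW.zeta_an hz
    have h1 := hA.analyticOrderAt_ne_top_of_isPreconnected Pool.Agent.Y21.FW.preconn (x := 2)
      (y := s₀) (by simp) hs1 (by
        intro h2
        rw [analyticOrderAt_eq_top] at h2
        exact Pool.Agent.Y21.FW.zeta_two_ne h2.self_of_nhds)
    exact h1 htop
  obtain ⟨H, hH, hH0, hev⟩ := (ha.analyticOrderAt_ne_top).1 htop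
  set μ := mult s₀ with hμ
  set Wc : ℝ → ℂ := fun t => phase t * I ^ μ * H (1 / 2 + I * t) with hWc
  have hlc : ContinuousAt (fun t : ℝ => (1 / 2 + I * t : ℂ)) g := by fun_prop
  have hHc : ContinuousAt (fun t : ℝ => H (1 / 2 + I * t)) g :=
    ContinuousAt.comp (f := fun t : ℝ => (1 / 2 + I * t : ℂ)) (x := g) hH.continuousAt hlc
  have hWcc : ContinuousAt Wc g := (phase_cont.continuousAt.mul continuousAt_const).mul hHc
  have hW0 : Wc g ≠ 0 := mul_ne_zero (mul_ne_zero (phase_ne g) (pow_ne_zero _ I_ne_zero)) hH0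
  have hev2 : ∀ᶠ t : ℝ in 𝓝 g, ((Z t : ℝ) : ℂ) = (((t - g) ^ μ : ℝ) : ℂ) * Wc t := by
    filter_upwards [hlc.eventually hev] with t ht
    rw [Z_real, ht, hWc]
    have e : (1 / 2 + I * t - s₀ : ℂ) = I * ((t - g : ℝ) : ℂ) := by
      rw [hs₀]
      push_cast
      ring
    rw [e, smul_eq_mul, mul_pow]
    change phase t * (I ^ μ * ((t - g : ℝ) : ℂ) ^ μ * H (1 / 2 + I * t)) = _
    push_cast
    ring
  refine ⟨fun t => (Wc t).re, Complex.continuous_re.continuousAt.comp hWcc, ?_, ?_⟩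
  · intro hre
    have him : (Wc g).im = 0 := by
      have h1 : Tendsto (fun t => (Wc t).im) (𝓝[≠] g) (𝓝 ((Wc g).im)) :=
        (Complex.continuous_im.continuousAt.comp hWcc).tendsto.mono_left nhdsWithin_le_nhds
      have h2 : Tendsto (fun t => (Wc t).im) (𝓝[≠] g) (𝓝 0) := by
        refine tendsto_const_nhds.congr' ?_
        filter_upwards [hev2.filter_mono nhdsWithin_le_nhds, self_mem_nhdsWithin] with t ht ht2
        have h3 := congrArg Complex.im ht
        rw [Complex.ofReal_im, Complex.im_ofReal_mul] at h3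
        have h4 : (t - g) ^ μ ≠ 0 := pow_ne_zero _ (sub_ne_zero.2 ht2)
        exact ((mul_eq_zero.1 h3.symm).resolve_left h4).symm
      exact tendsto_nhds_unique h1 h2
    exact hW0 (Complex.ext hre him)
  · filter_upwards [hev2] with t ht
    have h3 := congrArg Complex.re ht
    rw [Complex.ofReal_re, Complex.re_ofReal_mul] at h3
    exact h3

/-- the signs on both sides of a point -/
theorem local_sign (g : ℝ) (hg : 0 < g) : ∃ δ : ℝ, 0 < δ ∧ ∀ y z : ℝ, g - δ < y → y < g → g < z →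
    z < g + δ → 0 < (-1 : ℝ) ^ (mult (1 / 2 + I * g)) * (Z y * Z z) := by
  obtain ⟨W, hWc, hW0, hev⟩ := local_factor g hg
  set μ := mult (1 / 2 + I * g) with hμ
  have h1 : ∀ᶠ t in 𝓝 g, 0 < W g * W t := by
    have h2 : ContinuousAt (fun t => W g * W t) g := continuousAt_const.mul hWc
    exact h2.eventually (lt_mem_nhds (mul_self_pos.2 hW0))
  obtain ⟨δ, hδ, hball⟩ := Metric.eventually_nhds_iff.1 (h1.and hev)
  refine ⟨δ, hδ, fun y z hy1 hy2 hz1 hz2 => ?_⟩
  obtain ⟨hy3, hy4⟩ := hball (y := y) (by rw [Real.dist_eq, abs_lt]; constructor <;> linarith)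
  obtain ⟨hz3, hz4⟩ := hball (y := z) (by rw [Real.dist_eq, abs_lt]; constructor <;> linarith)
  rw [hy4, hz4]
  have hW2 : 0 < W y * W z := by
    have h5 : 0 < (W g * W y) * (W g * W z) := mul_pos hy3 hz3
    have h6 : 0 < W g * W g := mul_self_pos.2 hW0
    have h7 : (W g * W y) * (W g * W z) = (W g * W g) * (W y * W z) := by ring
    rw [h7] at h5
    exact (pos_iff_pos_of_mul_pos h5).1 h6
  have h8 : (-1 : ℝ) ^ μ * ((y - g) ^ μ * W y * ((z - g) ^ μ * W z)) =
      ((g - y) ^ μ * (z - g) ^ μ) * (W y * W z) := by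
    have h9 : (y - g) ^ μ = (-1) ^ μ * (g - y) ^ μ := by
      rw [← mul_pow]
      congr 1
      ring
    rw [h9]
    have h10 : (-1 : ℝ) ^ μ * (-1) ^ μ = 1 := by
      rw [← mul_pow]
      norm_num
    calc (-1 : ℝ) ^ μ * ((-1) ^ μ * (g - y) ^ μ * W y * ((z - g) ^ μ * W z))
        = ((-1 : ℝ) ^ μ * (-1) ^ μ) * (((g - y) ^ μ * (z - g) ^ μ) * (W y * W z)) := by ring
      _ = _ := by rw [h10, one_mul]
  rw [h8]
  have h11 : 0 < g - y := by linarith
  have h12 : 0 < z - g := by linarith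
  positivity

/-- zeros off the line contribute an even number -/
theorem off_even (S : Finset ℂ) (h : ∀ s ∈ S, s.im ≠ 0 ∧ 1 - (starRingEnd ℂ) s ∈ S) :
    Even (∑ s ∈ S.filter (fun s => ¬ s.re = 1 / 2), mult s) := by
  classical
  rw [← ZMod.natCast_eq_zero_iff_even]
  push_cast
  refine Finset.sum_involution (fun s _ => 1 - (starRingEnd ℂ) s) ?_ ?_ ?_ ?_
  · intro s hs
    have hs' := (Finset.mem_filter.1 hs).1
    have : mult (1 - (starRingEnd ℂ) s) = mult s := Pool.Agent.Y21.FW.mult_symm (h s hs').1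
    rw [this]
    exact CharTwo.add_self_eq_zero _
  · intro s hs _ heq
    have h1 := congrArg Complex.re heq
    simp only [Complex.sub_re, Complex.one_re, Complex.conj_re] at h1
    exact (Finset.mem_filter.1 hs).2 (by linarith)
  · intro s hs
    obtain ⟨h1, h2⟩ := Finset.mem_filter.1 hs
    rw [Finset.mem_filter]
    refine ⟨(h s h1).2, fun h3 => h2 ?_⟩
    simp only [Complex.sub_re, Complex.one_re, Complex.conj_re] at h3
    linarith
  · intro s _
    simp

theorem zeros_finite (T₁ T₂ : ℝ) : (zeros T₁ T₂).Finite := by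
  have h := Pool.Agent.Y21.FW.zeros_finite T₁ (T₂ - T₁)
  refine h.subset ?_
  rintro s ⟨h1, h2, h3, h4, h5⟩
  exact ⟨h1, h2, h3, h4, by linarith⟩

/-- the finite set of the zeros -/
noncomputable def Zf (T₁ T₂ : ℝ) : Finset ℂ := (zeros_finite T₁ T₂).toFinset

theorem mem_Zf {T₁ T₂ : ℝ} {s : ℂ} : s ∈ Zf T₁ T₂ ↔ s ∈ zeros T₁ T₂ := by
  unfold Zf
  rw [Set.Finite.mem_toFinset]

theorem N_eq (T₁ T₂ : ℝ) : N T₁ T₂ = ∑ s ∈ Zf T₁ T₂, mult s :=
  finsum_mem_eq_finite_toFinset_sum _ _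

theorem zeros_symm {T₁ T₂ : ℝ} (hT : 0 ≤ T₁) {s : ℂ} (hs : s ∈ zeros T₁ T₂) :
    1 - (starRingEnd ℂ) s ∈ zeros T₁ T₂ := by
  obtain ⟨h1, h2, h3, h4, h5⟩ := hs
  have := Pool.Agent.Y21.FW.zeros_symm hT (H := T₂ - T₁) (s := s) ⟨h1, h2, h3, h4, by linarith⟩
  obtain ⟨g1, g2, g3, g4, g5⟩ := this
  exact ⟨g1, g2, g3, g4, by linarith⟩

theorem N_split {a b c : ℝ} (hab : a ≤ b) (hbc : b ≤ c) : N a c = N a b + N b c := by
  classical
  rw [N_eq, N_eq, N_eq, ← Finset.sum_union]
  · refine Finset.sum_congr ?_ fun _ _ => rfl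
    ext s
    simp only [Finset.mem_union, mem_Zf, zeros, Set.mem_setOf_eq]
    constructor
    · rintro ⟨h1, h2, h3, h4, h5⟩
      rcases le_or_gt s.im b with h | h
      · exact Or.inl ⟨h1, h2, h3, h4, h⟩
      · exact Or.inr ⟨h1, h2, h3, h, h5⟩
    · rintro (⟨h1, h2, h3, h4, h5⟩ | ⟨h1, h2, h3, h4, h5⟩)
      · exact ⟨h1, h2, h3, h4, h5.trans hbc⟩
      · exact ⟨h1, h2, h3, lt_of_le_of_lt hab h4, h5⟩
  · rw [Finset.disjoint_left]
    intro s h1 h2
    rw [mem_Zf] at h1 h2
    exact absurd h2.2.2.2.1 (not_lt.2 h1.2.2.2.2)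

theorem on_line {s : ℂ} (hre : s.re = 1 / 2) : (1 / 2 + I * (s.im : ℂ) : ℂ) = s :=
  Complex.ext (by simp [hre]) (by simp)

theorem parity_zero {a t : ℝ} (ha : 0 ≤ a) (h : ∀ x, a < x → x ≤ t → Z x ≠ 0) : Even (N a t) := by
  classical
  rw [N_eq, ← Finset.sum_filter_add_sum_filter_not (Zf a t) (fun s => s.re = 1 / 2)]
  have h1 : (Zf a t).filter (fun s => s.re = 1 / 2) = ∅ := by
    rw [Finset.filter_eq_empty_iff]
    intro s hs hre
    rw [mem_Zf] at hs
    refine h s.im hs.2.2.2.1 hs.2.2.2.2 ?_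
    rw [Z_zero_iff, on_line hre]
    exact hs.1
  rw [h1, Finset.sum_empty, zero_add]
  refine off_even _ fun s hs => ?_
  rw [mem_Zf] at hs
  exact ⟨by linarith [hs.2.2.2.1], mem_Zf.2 (zeros_symm ha hs)⟩

theorem parity_one {y t g : ℝ} (hy : 0 ≤ y) (hyg : y < g) (hgt : g ≤ t) (hz : Z g = 0)
    (honly : ∀ x, y < x → x ≤ t → Z x = 0 → x = g) :
    ∃ k : ℕ, N y t = mult (1 / 2 + I * g) + 2 * k := by
  classical
  rw [N_eq, ← Finset.sum_filter_add_sum_filter_not (Zf y t) (fun s => s.re = 1 / 2)]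
  have h1 : (Zf y t).filter (fun s => s.re = 1 / 2) = {1 / 2 + I * (g : ℂ)} := by
    ext s
    rw [Finset.mem_filter, mem_Zf, Finset.mem_singleton]
    constructor
    · rintro ⟨hs, hre⟩
      have : s.im = g := honly s.im hs.2.2.2.1 hs.2.2.2.2 (by
        rw [Z_zero_iff, on_line hre]
        exact hs.1)
      rw [← this, on_line hre]
    · rintro rfl
      refine ⟨⟨(Z_zero_iff g).1 hz, ?_, ?_, ?_, ?_⟩, line_re g⟩
      · rw [line_re]; norm_num
      · rw [line_re]; norm_num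
      · rw [line_im]; exact hyg
      · rw [line_im]; exact hgt
  rw [h1, Finset.sum_singleton]
  obtain ⟨k, hk⟩ := off_even (Zf y t) fun s hs => by
    rw [mem_Zf] at hs
    exact ⟨by linarith [hs.2.2.2.1], mem_Zf.2 (zeros_symm hy hs)⟩
  exact ⟨k, by rw [hk]; ring⟩

/-- no zeros, same sign -/
theorem same_sign {a b : ℝ} (hab : a ≤ b) (h : ∀ x, a ≤ x → x ≤ b → Z x ≠ 0) : 0 < Z a * Z b := by
  by_contra hcon
  push Not at hcon
  have ha := h a le_rfl hab
  have hb := h b hab le_rfl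
  rcases lt_or_gt_of_ne ha with ha1 | ha1
  · have hb1 : 0 < Z b := by
      rcases lt_or_gt_of_ne hb with hb1 | hb1
      · nlinarith
      · exact hb1
    obtain ⟨x, hx, hx0⟩ := intermediate_value_Icc hab Z_cont.continuousOn ⟨ha1.le, hb1.le⟩
    exact h x hx.1 hx.2 hx0
  · have hb1 : Z b < 0 := by
      rcases lt_or_gt_of_ne hb with hb1 | hb1
      · exact hb1
      · nlinarith
    obtain ⟨x, hx, hx0⟩ := intermediate_value_Icc' hab Z_cont.continuousOn ⟨hb1.le, ha1.le⟩
    exact h x hx.1 hx.2 hx0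

theorem roots_finite (t : ℝ) : {x : ℝ | 0 < x ∧ x ≤ t ∧ Z x = 0}.Finite := by
  have hinj : Function.Injective fun t : ℝ => (1 / 2 + I * t : ℂ) := by
    intro a b hab
    have := congrArg Complex.im hab
    simpa using this
  refine Set.Finite.of_finite_image ((zeros_finite 0 t).subset ?_) hinj.injOn
  rintro s ⟨x, ⟨h1, h2, h3⟩, rfl⟩
  refine ⟨(Z_zero_iff x).1 h3, ?_, ?_, ?_, ?_⟩
  · simp
  · simp; norm_num
  · simpa using h1
  · simpa using h2

/-- **The sign of Hardy's function.** -/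
theorem sign_formula : ∀ n : ℕ, ∀ t : ℝ, 0 < t → Z t ≠ 0 → (roots_finite t).toFinset.card = n →
    0 < -((-1 : ℝ) ^ (N 0 t) * Z t) := by
  classical
  intro n
  induction n with
  | zero =>
    intro t ht hZ hc
    have hno : ∀ x, 0 < x → x ≤ t → Z x ≠ 0 := by
      intro x h1 h2 h3
      have : x ∈ (roots_finite t).toFinset := by
        rw [Set.Finite.mem_toFinset]
        exact ⟨h1, h2, h3⟩
      rw [Finset.card_eq_zero.1 hc] at this
      exact absurd this (Finset.notMem_empty _)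
    have h1 := same_sign ht.le (fun x hx0 hxt => by
      rcases hx0.eq_or_lt with h | h
      · rw [← h]
        exact Z_zero_neg.ne
      · exact hno x h hxt)
    have h2 : Z t < 0 := by
      have := Z_zero_neg
      nlinarith
    rw [(parity_zero le_rfl hno).neg_one_pow]
    linarith
  | succ n ih =>
    intro t ht hZ hc
    set R := (roots_finite t).toFinset with hR
    have hmemR : ∀ x, x ∈ R ↔ 0 < x ∧ x ≤ t ∧ Z x = 0 := by
      intro x
      rw [hR, Set.Finite.mem_toFinset]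
      rfl
    have hne : R.Nonempty := by
      rw [← Finset.card_pos, hc]
      omega
    set g := R.max' hne with hg
    have hgR : g ∈ R := Finset.max'_mem _ _
    obtain ⟨hg0, hgt, hgz⟩ := (hmemR g).1 hgR
    have hgt' : g < t := lt_of_le_of_ne hgt (by rintro h; rw [h] at hgz; exact hZ hgz)
    obtain ⟨δ, hδ, hloc⟩ := local_sign g hg0
    -- the previous root
    obtain ⟨p, hp0, hpg, hp⟩ : ∃ p : ℝ, 0 ≤ p ∧ p < g ∧ ∀ x ∈ R, x ≠ g → x ≤ p := by
      have hne2 : (insert 0 (R.erase g)).Nonempty := Finset.insert_nonempty _ _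
      refine ⟨(insert 0 (R.erase g)).max' hne2, ?_, ?_, ?_⟩
      · exact Finset.le_max' _ _ (Finset.mem_insert_self _ _)
      · rw [Finset.max'_lt_iff]
        intro x hx
        rcases Finset.mem_insert.1 hx with rfl | hx
        · exact hg0
        · obtain ⟨h1, h2⟩ := Finset.mem_erase.1 hx
          exact lt_of_le_of_ne (Finset.le_max' _ _ h2) h1
      · intro x hx hxg
        exact Finset.le_max' _ _ (Finset.mem_insert_of_mem (Finset.mem_erase.2 ⟨hxg, hx⟩))
    obtain ⟨y, hy1, hy2⟩ := exists_between (max_lt hpg (by linarith : g - δ < g))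
    have hyp : p < y := (le_max_left _ _).trans_lt hy1
    have hyd : g - δ < y := (le_max_right _ _).trans_lt hy1
    have hy0 : 0 < y := by linarith
    obtain ⟨z, hz1, hz2⟩ := exists_between (lt_min hgt' (by linarith : g < g + δ))
    have hzt : z < t := hz2.trans_le (min_le_left _ _)
    have hzd : z < g + δ := hz2.trans_le (min_le_right _ _)
    have hZy : Z y ≠ 0 := by
      intro h
      have := hp y ((hmemR y).2 ⟨hy0, by linarith, h⟩) hy2.ne
      linarith
    have hRy : (roots_finite y).toFinset = R.erase g := by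
      ext x
      rw [Set.Finite.mem_toFinset, Finset.mem_erase, hmemR]
      constructor
      · rintro ⟨h1, h2, h3⟩
        exact ⟨by linarith, h1, by linarith, h3⟩
      · rintro ⟨h1, h2, h3, h4⟩
        exact ⟨h2, (hp x ((hmemR x).2 ⟨h2, h3, h4⟩) h1).trans hyp.le, h4⟩
    have hcy : (roots_finite y).toFinset.card = n := by
      rw [hRy, Finset.card_erase_of_mem hgR, hc]
      omega
    have h1 := ih y hy0 hZy hcy
    have h2 := hloc y z hyd hy2 hz1 hzd
    have h3 : 0 < Z z * Z t := by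
      refine same_sign hzt.le fun x hx1 hx2 hx3 => ?_
      have : x ≤ g := Finset.le_max' _ _ ((hmemR x).2 ⟨by linarith, hx2, hx3⟩)
      linarith
    obtain ⟨k, hk⟩ := parity_one hy0.le hy2 hgt hgz (fun x hx1 hx2 hx3 => by
      by_contra hne'
      have := hp x ((hmemR x).2 ⟨by linarith, hx2, hx3⟩) hne'
      linarith)
    rw [N_split hy0.le (by linarith : y ≤ t), hk, pow_add, pow_add, pow_mul]
    have e1 : ((-1 : ℝ) ^ 2) ^ k = 1 := by norm_num
    rw [e1, mul_one]
    set u := (-1 : ℝ) ^ (N 0 y) with hu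
    set v := (-1 : ℝ) ^ (mult (1 / 2 + I * g)) with hv
    have hprod : 0 < (-(u * Z y)) * ((v * (Z y * Z z)) * (Z z * Z t)) :=
      mul_pos h1 (mul_pos h2 h3)
    have e2 : (-(u * Z y)) * ((v * (Z y * Z z)) * (Z z * Z t)) =
        (Z y ^ 2 * Z z ^ 2) * -(u * v * Z t) := by ring
    rw [e2] at hprod
    have h4 : 0 ≤ Z y ^ 2 * Z z ^ 2 := by positivity
    exact pos_of_mul_pos_right hprod h4

/-- **The direction of a crossing and the parity of the index.** -/
theorem deriv_pos_iff {t : ℝ} (ht : 0 < t) (hz : Z t = 0) (hd : deriv Z t ≠ 0) :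
    0 < deriv Z t ↔ Odd (N 0 t) := by
  classical
  have hD := (Z_hasDerivAt t ((Z_zero_iff t).1 hz)).1
  rw [← hD.deriv] at hD
  set D := deriv Z t with hDdef
  have h1 : ∀ᶠ z in 𝓝[>] t, 0 < D * (Z z / (z - t)) := by
    have h2 := (hasDerivAt_iff_tendsto_slope.1 hD).mono_left
      (nhdsWithin_mono t (fun x (hx : t < x) => ne_of_gt hx) : 𝓝[>] t ≤ 𝓝[≠] t)
    have h3 : Tendsto (fun z => D * slope Z t z) (𝓝[>] t) (𝓝 (D * D)) := h2.const_mul D
    have h4 := h3.eventually (lt_mem_nhds (mul_self_pos.2 hd))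
    filter_upwards [h4] with z hz4
    rw [slope_def_field, hz, sub_zero] at hz4
    exact hz4
  have h2 : ∀ᶠ z in 𝓝[>] t, N 0 z = N 0 t := by
    have hfin := zeros_finite t (t + 1)
    have h3 : ∀ᶠ z in 𝓝[>] t, ∀ s ∈ Zf t (t + 1), z < s.im := by
      rw [Filter.eventually_all_finset]
      intro s hs
      rw [mem_Zf] at hs
      have : Set.Iio s.im ∈ 𝓝 t := Iio_mem_nhds hs.2.2.2.1
      exact mem_nhdsWithin_of_mem_nhds this
    have h4 : ∀ᶠ z in 𝓝[>] t, z < t + 1 := by
      have : Set.Iio (t + 1) ∈ 𝓝 t := Iio_mem_nhds (by linarith)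
      exact mem_nhdsWithin_of_mem_nhds this
    filter_upwards [h3, h4, self_mem_nhdsWithin] with z h3 h4 h5
    rw [N_split ht.le (le_of_lt h5), N_eq t z]
    have : Zf t z = ∅ := by
      rw [Finset.eq_empty_iff_forall_notMem]
      intro s hs
      rw [mem_Zf] at hs
      have h6 := h3 s (mem_Zf.2 ⟨hs.1, hs.2.1, hs.2.2.1, hs.2.2.2.1, by linarith [hs.2.2.2.2]⟩)
      linarith [hs.2.2.2.2]
    rw [this, Finset.sum_empty, add_zero]
  obtain ⟨z, hz1, hz2, hzt⟩ := (h1.and (h2.and self_mem_nhdsWithin)).exists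
  have hzt : t < z := hzt
  have hzt' : 0 < z - t := by linarith
  have h5 : 0 < D * Z z := by
    have e : D * Z z = (D * (Z z / (z - t))) * (z - t) := by
      field_simp
    rw [e]
    positivity
  have hZz : Z z ≠ 0 := by
    intro h
    rw [h, mul_zero] at h5
    exact lt_irrefl _ h5
  have h6 := sign_formula _ z (by linarith) hZz rfl
  rw [hz2] at h6
  constructor
  · intro hDp
    have h7 : 0 < Z z := (pos_iff_pos_of_mul_pos h5).1 hDp
    by_contra hodd
    rw [Nat.not_odd_iff_even] at hodd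
    rw [hodd.neg_one_pow] at h6
    linarith
  · intro hodd
    rw [hodd.neg_one_pow] at h6
    have h7 : 0 < Z z := by linarith
    exact (pos_iff_pos_of_mul_pos h5).2 h7

end Pool.Agent.Q32.Idx
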