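import Pool.Agent.Q32.Idx.Comb
import Pool.Agent.Q32.Idx.Sign

set_option autoImplicit false

/-!
# Simple zeros whose index is in a given set
-/

namespace Pool.Agent.Q32.Idx

open Complex Filter Topology

theorem mult_pos {g : ℝ} (hz : Z g = 0) : 0 < mult (1 / 2 + I * g) :=
  (Pool.Agent.Y21.FW.mult_pos_iff (line_ne g)).2 ((Z_zero_iff g).1 hz)

/-- simple zeros of `Z` and of zeta -/
theorem simple_iff {g : ℝ} (hg : 0 < g) (hz : Z g = 0) :
    deriv Z g ≠ 0 ↔ mult (1 / 2 + I * g) = 1 := by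
  obtain ⟨W, hWc, hW0, hev⟩ := local_factor g hg
  have hpos := mult_pos hz
  obtain ⟨m, hm⟩ : ∃ m, mult (1 / 2 + I * g) = m + 1 := ⟨mult (1 / 2 + I * g) - 1, by omega⟩
  rw [hm] at hev
  have hD : HasDerivAt Z ((g - g) ^ m * W g) g := by
    rw [hasDerivAt_iff_tendsto_slope]
    have h1 : Tendsto (fun t => (t - g) ^ m * W t) (𝓝[≠] g) (𝓝 ((g - g) ^ m * W g)) := by
      have h2 : ContinuousAt (fun t => (t - g) ^ m * W t) g := by
        refine ContinuousAt.mul ?_ hWc
        fun_prop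
      exact h2.tendsto.mono_left nhdsWithin_le_nhds
    refine h1.congr' ?_
    filter_upwards [hev.filter_mono nhdsWithin_le_nhds, self_mem_nhdsWithin] with t ht ht2
    have h3 : t - g ≠ 0 := sub_ne_zero.2 ht2
    rw [slope_def_field, ht, hz, sub_zero, pow_succ]
    field_simp
  rw [hD.deriv, hm, sub_self]
  constructor
  · intro h
    rcases Nat.eq_zero_or_pos m with h1 | h1
    · rw [h1]
    · rw [zero_pow h1.ne', zero_mul] at h
      exact absurd rfl h
  · intro h
    have : m = 0 := by omega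
    rw [this, pow_zero, one_mul]
    exact hW0

/-- the excess multiplicity (subtraction of natural numbers) -/
noncomputable def exw (s : ℂ) : ℕ := by
  classical
  exact if s.re = 1 / 2 then mult s - 2 else mult s - 1

/-- the simple zeros with index in `A` -/
def simpleZerosIn (A : Set ℕ) (T₁ T₂ : ℝ) : Set ℝ := {t : ℝ | t ∈ simpleZeros T₁ T₂ ∧ N 0 t ∈ A}

theorem simpleZeros_finite {T₁ T₂ : ℝ} (h : 0 ≤ T₁) : (simpleZeros T₁ T₂).Finite :=
  (roots_finite T₂).subset fun t ht => ⟨lt_of_le_of_lt h ht.1, ht.2.1, ht.2.2.1⟩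

theorem Zf_mono {T₁ T₂ g : ℝ} (hg : g ≤ T₂) (x : ℝ) (hx : x ≤ g) :
    (Zf T₁ T₂).filter (fun s => s.im = x) = (Zf T₁ g).filter (fun s => s.im = x) := by
  classical
  ext s
  rw [Finset.mem_filter, Finset.mem_filter, mem_Zf, mem_Zf]
  constructor
  · rintro ⟨⟨h1, h2, h3, h4, h5⟩, h6⟩
    exact ⟨⟨h1, h2, h3, h4, h6.trans_le hx⟩, h6⟩
  · rintro ⟨⟨h1, h2, h3, h4, h5⟩, h6⟩
    exact ⟨⟨h1, h2, h3, h4, h5.trans hg⟩, h6⟩

/-- **The main inequality.** -/
theorem main_ineq {A : Set ℕ} (hA : NoCons A) {T₁ T₂ : ℝ} (h1 : 0 ≤ T₁) (h12 : T₁ ≤ T₂) :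
    2 * cnt A (N 0 T₁) (N T₁ T₂) + (simpleZeros T₁ T₂).ncard ≤
      2 * (simpleZerosIn A T₁ T₂).ncard + N T₁ T₂ + ∑ s ∈ Zf T₁ T₂, exw s := by
  classical
  set G : Finset ℝ := (Zf T₁ T₂).image (fun s => s.im) with hG
  set M : ℝ → ℕ := fun g => ∑ s ∈ (Zf T₁ T₂).filter (fun s => s.im = g), mult s with hM
  set sg : ℝ → ℕ := fun g => if g ∈ simpleZeros T₁ T₂ then 1 else 0 with hsg
  set e : ℝ → ℕ := fun g => ∑ s ∈ (Zf T₁ T₂).filter (fun s => s.im = g), exw s with he
  have hmaps : ∀ s ∈ Zf T₁ T₂, s.im ∈ G := fun s hs => Finset.mem_image_of_mem _ hs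
  have hGm : ∀ g ∈ G, T₁ < g ∧ g ≤ T₂ := by
    intro g hg
    obtain ⟨s, hs, rfl⟩ := Finset.mem_image.1 hg
    rw [mem_Zf] at hs
    exact ⟨hs.2.2.2.1, hs.2.2.2.2⟩
  have hsM : ∑ g ∈ G, M g = N T₁ T₂ := by
    rw [N_eq, hM]
    exact Finset.sum_fiberwise_of_maps_to hmaps _
  have hsE : ∑ g ∈ G, e g = ∑ s ∈ Zf T₁ T₂, exw s := by
    rw [he]
    exact Finset.sum_fiberwise_of_maps_to hmaps _
  have hsub : ∀ t ∈ simpleZeros T₁ T₂, t ∈ G := by
    intro t ht
    refine Finset.mem_image.2 ⟨1 / 2 + I * t, ?_, line_im t⟩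
    rw [mem_Zf]
    refine ⟨(Z_zero_iff t).1 ht.2.2.1, ?_, ?_, ?_, ?_⟩
    · rw [line_re]; norm_num
    · rw [line_re]; norm_num
    · rw [line_im]; exact ht.1
    · rw [line_im]; exact ht.2.1
  have hsS : ∑ g ∈ G, sg g = (simpleZeros T₁ T₂).ncard := by
    rw [hsg, Finset.sum_boole, Nat.cast_id]
    rw [← Set.ncard_coe_finset]
    congr 1
    ext t
    simp only [Finset.coe_filter, Set.mem_setOf_eq]
    exact ⟨fun h => h.2, fun h => ⟨hsub t h, h⟩⟩
  have hsA : (G.filter (fun g => sg g = 1 ∧ N 0 g ∈ A)).card = (simpleZerosIn A T₁ T₂).ncard := by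
    rw [← Set.ncard_coe_finset]
    congr 1
    ext t
    simp only [Finset.coe_filter, Set.mem_setOf_eq, simpleZerosIn]
    constructor
    · rintro ⟨_, h2, h3⟩
      refine ⟨?_, h3⟩
      by_contra hcon
      rw [hsg] at h2
      simp only [if_neg hcon] at h2
      omega
    · rintro ⟨h2, h3⟩
      refine ⟨hsub t h2, ?_, h3⟩
      rw [hsg]
      simp only [if_pos h2]
  -- the two parts of the zeros with ordinate `g`
  have hoff : ∀ g ∈ G, Even (∑ s ∈ ((Zf T₁ T₂).filter (fun s => s.im = g)).filter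
      (fun s => ¬ s.re = 1 / 2), mult s) := by
    intro g hg
    refine off_even _ fun s hs => ?_
    obtain ⟨h3, h4⟩ := Finset.mem_filter.1 hs
    rw [mem_Zf] at h3
    refine ⟨by linarith [h3.2.2.2.1], Finset.mem_filter.2 ⟨mem_Zf.2 (zeros_symm h1 h3), ?_⟩⟩
    simpa using h4
  have hon : ∀ g ∈ G, Z g = 0 → ((Zf T₁ T₂).filter (fun s => s.im = g)).filter
      (fun s => s.re = 1 / 2) = {1 / 2 + I * (g : ℂ)} := by
    intro g hg hz
    ext s
    rw [Finset.mem_filter, Finset.mem_filter, mem_Zf, Finset.mem_singleton]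
    constructor
    · rintro ⟨⟨_, h3⟩, h4⟩
      rw [← h3, on_line h4]
    · rintro rfl
      refine ⟨⟨⟨(Z_zero_iff g).1 hz, ?_, ?_, ?_, ?_⟩, line_im g⟩, line_re g⟩
      · rw [line_re]; norm_num
      · rw [line_re]; norm_num
      · rw [line_im]; exact (hGm g hg).1
      · rw [line_im]; exact (hGm g hg).2
  have hon0 : ∀ g ∈ G, Z g ≠ 0 → ((Zf T₁ T₂).filter (fun s => s.im = g)).filter
      (fun s => s.re = 1 / 2) = ∅ := by
    intro g hg hz
    rw [Finset.filter_eq_empty_iff]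
    intro s hs h4
    obtain ⟨h2, h3⟩ := Finset.mem_filter.1 hs
    rw [mem_Zf] at h2
    apply hz
    rw [← h3, Z_zero_iff, on_line h4]
    exact h2.1
  have hMg : ∀ g, M g = ∑ s ∈ ((Zf T₁ T₂).filter (fun s => s.im = g)).filter
      (fun s => s.re = 1 / 2), mult s + ∑ s ∈ ((Zf T₁ T₂).filter (fun s => s.im = g)).filter
      (fun s => ¬ s.re = 1 / 2), mult s := fun g =>
    (Finset.sum_filter_add_sum_filter_not _ _ _).symm
  have hcond : ∀ g ∈ G, (sg g = 1 ∧ Odd (M g)) ∨ (sg g = 0 ∧ (Even (M g) ∨ 1 ≤ e g)) := by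
    intro g hg
    have hg0 : 0 < g := lt_of_le_of_lt h1 (hGm g hg).1
    by_cases hs : g ∈ simpleZeros T₁ T₂
    · left
      refine ⟨by rw [hsg]; simp only [if_pos hs], ?_⟩
      have h3 := (simple_iff hg0 hs.2.2.1).1 hs.2.2.2
      rw [hMg, hon g hg hs.2.2.1, Finset.sum_singleton, h3]
      exact (hoff g hg).one_add
    · right
      refine ⟨by rw [hsg]; simp only [if_neg hs], ?_⟩
      by_cases hz : Z g = 0
      · have hne : mult (1 / 2 + I * g) ≠ 1 := by
          intro h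
          exact hs ⟨(hGm g hg).1, (hGm g hg).2, hz, (simple_iff hg0 hz).2 h⟩
        have hp := mult_pos hz
        rcases Nat.even_or_odd (mult (1 / 2 + I * g)) with h3 | h3
        · left
          rw [hMg, hon g hg hz, Finset.sum_singleton]
          exact h3.add (hoff g hg)
        · right
          have h4 : 3 ≤ mult (1 / 2 + I * g) := by
            obtain ⟨k, hk⟩ := h3
            omega
          have hmem : (1 / 2 + I * (g : ℂ)) ∈ (Zf T₁ T₂).filter (fun s => s.im = g) := by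
            have : (1 / 2 + I * (g : ℂ)) ∈ ((Zf T₁ T₂).filter (fun s => s.im = g)).filter
                (fun s => s.re = 1 / 2) := by
              rw [hon g hg hz]
              exact Finset.mem_singleton_self _
            exact (Finset.mem_filter.1 this).1
          have h5 : exw (1 / 2 + I * g) ≤ e g :=
            Finset.single_le_sum (f := exw) (fun _ _ => Nat.zero_le _) hmem
          have h6 : exw (1 / 2 + I * g) = mult (1 / 2 + I * g) - 2 := by
            unfold exw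
            rw [if_pos (line_re g)]
          omega
      · left
        rw [hMg, hon0 g hg hz, Finset.sum_empty, zero_add]
        exact hoff g hg
  have hidx : ∀ g ∈ G, N 0 T₁ + ∑ x ∈ G.filter (· ≤ g), M x = N 0 g := by
    intro g hg
    obtain ⟨h3, h4⟩ := hGm g hg
    rw [N_split h1 h3.le, N_eq T₁ g]
    congr 1
    rw [← Finset.sum_fiberwise_of_maps_to (s := Zf T₁ g) (t := G.filter (· ≤ g))
      (g := fun s => s.im)]
    · refine Finset.sum_congr rfl fun x hx => ?_
      rw [hM]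
      simp only
      rw [Zf_mono h4 x (Finset.mem_filter.1 hx).2]
    · intro s hs
      rw [mem_Zf] at hs
      rw [Finset.mem_filter]
      refine ⟨hmaps s (mem_Zf.2 ⟨hs.1, hs.2.1, hs.2.2.1, hs.2.2.2.1, hs.2.2.2.2.trans h4⟩),
        hs.2.2.2.2⟩
  have key := blocks hA M sg e (N 0 T₁) G hcond (fun g => N 0 g ∈ A)
    (fun g hg _ hm => by rw [hidx g hg] at hm; exact hm)
  rw [hsM, hsE, hsS, hsA] at key
  exact key

theorem cnt_pos {A : Set ℕ} {m k x : ℕ} (h1 : m < x) (h2 : x ≤ m + k) (h3 : x ∈ A) :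
    1 ≤ cnt A m k := by
  classical
  unfold cnt
  rw [Nat.one_le_iff_ne_zero, ← Nat.pos_iff_ne_zero, Finset.card_pos]
  exact ⟨x, Finset.mem_filter.2 ⟨Finset.mem_Ioc.2 ⟨h1, h2⟩, h3⟩⟩

/-- the numbers congruent to `a` -/
theorem cnt_mod (q a m k : ℕ) (hq : 2 ≤ q) :
    (k : ℝ) / q - 1 ≤ (cnt {n : ℕ | n ≡ a [MOD q]} m k : ℝ) := by
  classical
  have hq0 : 0 < q := by omega
  have hqr : (0 : ℝ) < q := by exact_mod_cast hq0
  induction k using Nat.strong_induction_on with
  | _ k ih =>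
    by_cases hk : k < q
    · have h1 : (k : ℝ) / q ≤ 1 := by
        rw [div_le_one hqr]
        exact_mod_cast hk.le
      have h2 : (0 : ℝ) ≤ (cnt {n : ℕ | n ≡ a [MOD q]} m k : ℝ) := Nat.cast_nonneg _
      linarith
    · push Not at hk
      obtain ⟨j, rfl⟩ := Nat.exists_eq_add_of_le' hk
      have h1 := ih j (by omega)
      rw [cnt_add]
      have h2 : 1 ≤ cnt {n : ℕ | n ≡ a [MOD q]} (m + j) q := by
        have h3 : (a + q * (m + j + 1) - (m + j + 1)) % q < q := Nat.mod_lt _ hq0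
        have h4 : m + j + 1 ≤ a + q * (m + j + 1) := by nlinarith
        refine cnt_pos (x := m + j + 1 + (a + q * (m + j + 1) - (m + j + 1)) % q)
          (by omega) (by omega) ?_
        change m + j + 1 + (a + q * (m + j + 1) - (m + j + 1)) % q ≡ a [MOD q]
        calc m + j + 1 + (a + q * (m + j + 1) - (m + j + 1)) % q
            ≡ m + j + 1 + (a + q * (m + j + 1) - (m + j + 1)) [MOD q] :=
              Nat.ModEq.add_left _ (Nat.mod_modEq _ _)
          _ = a + q * (m + j + 1) := by omega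
          _ ≡ a + 0 [MOD q] := Nat.ModEq.add_left _ (Nat.modEq_zero_iff_dvd.2 (dvd_mul_right _ _))
          _ = a := by omega
      have h3 : (1 : ℝ) ≤ (cnt {n : ℕ | n ≡ a [MOD q]} (m + j) q : ℝ) := by exact_mod_cast h2
      push_cast
      rw [add_div, div_self hqr.ne']
      linarith

theorem noCons_mod (q a : ℕ) (hq : 2 ≤ q) : NoCons {n : ℕ | n ≡ a [MOD q]} := by
  intro n h1 h2
  have h3 : n + 1 ≡ n [MOD q] := Nat.ModEq.trans h2 (Nat.ModEq.symm h1)
  have h4 : n + 1 ≡ n + 0 [MOD q] := h3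
  have h5 := Nat.ModEq.add_left_cancel' n h4
  have h6 : q ∣ 1 := Nat.modEq_zero_iff_dvd.1 h5
  have := Nat.le_of_dvd one_pos h6
  omega

end Pool.Agent.Q32.Idx
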