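import Mathlib

set_option autoImplicit false

/-!
# Sets of indices without two consecutive elements, and blocks of indices
-/

namespace Pool.Agent.Q32.Idx

open Finset

/-- the elements of `A` in `(m, m + k]` -/
noncomputable def cnt (A : Set ℕ) (m k : ℕ) : ℕ := by
  classical
  exact ((Ioc m (m + k)).filter (· ∈ A)).card

theorem cnt_zero (A : Set ℕ) (m : ℕ) : cnt A m 0 = 0 := by
  classical
  unfold cnt
  simp

theorem cnt_succ (A : Set ℕ) (m k : ℕ) [Decidable (m + k + 1 ∈ A)] :
    cnt A m (k + 1) = cnt A m k + if m + k + 1 ∈ A then 1 else 0 := by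
  classical
  unfold cnt
  have h : Ioc m (m + (k + 1)) = insert (m + k + 1) (Ioc m (m + k)) := by
    ext x
    simp only [mem_Ioc, mem_insert]
    omega
  rw [h, filter_insert]
  split_ifs with h1
  · rw [card_insert_of_notMem]
    simp
  · simp

theorem cnt_add (A : Set ℕ) (m k l : ℕ) : cnt A m (k + l) = cnt A m k + cnt A (m + k) l := by
  classical
  induction l with
  | zero => simp [cnt_zero]
  | succ l ih =>
    rw [← add_assoc, cnt_succ, ih, cnt_succ, ← add_assoc m k l, add_assoc (cnt A m k)]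

/-- no two consecutive elements -/
def NoCons (A : Set ℕ) : Prop := ∀ n ∈ A, n + 1 ∉ A

theorem cnt_even {A : Set ℕ} (hA : NoCons A) (m j : ℕ) : cnt A m (2 * j) ≤ j := by
  classical
  induction j with
  | zero => simp [cnt_zero]
  | succ j ih =>
    rw [show 2 * (j + 1) = 2 * j + 1 + 1 by ring, cnt_succ, cnt_succ]
    have h1 : ¬ (m + 2 * j + 1 ∈ A ∧ m + 2 * j + 1 + 1 ∈ A) := fun h => hA _ h.1 h.2
    have e : m + (2 * j + 1) + 1 = m + 2 * j + 1 + 1 := by ring
    rw [e]
    split_ifs with a b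
    · exact absurd ⟨a, b⟩ h1
    · omega
    · omega
    · omega

theorem cnt_le {A : Set ℕ} (hA : NoCons A) (m k : ℕ) : 2 * cnt A m k ≤ k + 1 := by
  classical
  rcases Nat.even_or_odd' k with ⟨j, rfl | rfl⟩
  · have := cnt_even hA m j
    omega
  · have := cnt_even hA m j
    rw [cnt_succ]
    split_ifs <;> omega

/-- the bound for one block -/
theorem block {A : Set ℕ} (hA : NoCons A) (m M s e : ℕ) [Decidable (s = 1 ∧ m + M ∈ A)]
    (h : (s = 1 ∧ Odd M) ∨ (s = 0 ∧ (Even M ∨ 1 ≤ e))) :
    2 * cnt A m M + s ≤ 2 * (if s = 1 ∧ m + M ∈ A then 1 else 0) + M + e := by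
  classical
  rcases h with ⟨h1, ⟨j, rfl⟩⟩ | ⟨h1, h2 | h2⟩
  · have h3 := cnt_even hA m j
    rw [cnt_succ]
    by_cases h4 : m + (2 * j + 1) ∈ A
    · have h5 : m + 2 * j + 1 ∈ A := h4
      rw [if_pos h5, if_pos ⟨h1, h4⟩]
      omega
    · have h5 : m + 2 * j + 1 ∉ A := h4
      rw [if_neg h5, if_neg fun h => h4 h.2]
      omega
  · obtain ⟨j, rfl⟩ := h2
    have h3 := cnt_even hA m j
    rw [show 2 * j = j + j by ring] at h3
    omega
  · have h3 := cnt_le hA m M
    omega

/-- **Blocks of indices.** -/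
theorem blocks {A : Set ℕ} (hA : NoCons A) (M s e : ℝ → ℕ) (n₀ : ℕ) (G : Finset ℝ)
    (h : ∀ g ∈ G, (s g = 1 ∧ Odd (M g)) ∨ (s g = 0 ∧ (Even (M g) ∨ 1 ≤ e g)))
    (P : ℝ → Prop) [DecidablePred P]
    (hP : ∀ g ∈ G, s g = 1 → n₀ + ∑ x ∈ G.filter (· ≤ g), M x ∈ A → P g) :
    2 * cnt A n₀ (∑ g ∈ G, M g) + ∑ g ∈ G, s g ≤
      2 * (G.filter (fun g => s g = 1 ∧ P g)).card + ∑ g ∈ G, M g + ∑ g ∈ G, e g := by
  classical
  induction G using Finset.induction_on_max with
  | empty => simp [cnt_zero]
  | insert g G hg ih =>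
    have hgn : g ∉ G := fun h => lt_irrefl _ (hg g h)
    rw [sum_insert hgn, sum_insert hgn, sum_insert hgn, add_comm (M g), cnt_add]
    have ih' := ih (fun x hx => h x (mem_insert_of_mem hx)) (fun x hx h1 h2 => by
      refine hP x (mem_insert_of_mem hx) h1 ?_
      have : (insert g G).filter (· ≤ x) = G.filter (· ≤ x) := by
        rw [filter_insert, if_neg (not_le.2 (hg x hx))]
      rw [this]
      exact h2)
    have hb := block hA (n₀ + ∑ x ∈ G, M x) (M g) (s g) (e g) (h g (mem_insert_self _ _))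
    have hc : (if s g = 1 ∧ n₀ + ∑ x ∈ G, M x + M g ∈ A then 1 else 0) +
        (G.filter (fun g => s g = 1 ∧ P g)).card ≤
        ((insert g G).filter (fun g => s g = 1 ∧ P g)).card := by
      rw [filter_insert]
      have hPg : s g = 1 → n₀ + ∑ x ∈ G, M x + M g ∈ A → P g := by
        intro h1 h2
        refine hP g (mem_insert_self _ _) h1 ?_
        have : (insert g G).filter (· ≤ g) = insert g G := by
          rw [filter_eq_self]
          intro x hx
          rcases mem_insert.1 hx with rfl | hx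
          · exact le_rfl
          · exact (hg x hx).le
        rw [this, sum_insert hgn]
        convert h2 using 1
        ring
      split_ifs with a b b
      · rw [card_insert_of_notMem (by simp [hgn])]
        omega
      · exact absurd ⟨a.1, hPg a.1 a.2⟩ b
      · rw [card_insert_of_notMem (by simp [hgn])]
        omega
      · omega
    omega

end Pool.Agent.Q32.Idx
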