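import Mathlib

set_option autoImplicit false

/-!
# Hardy's function and its simple zeros: definitions
-/

namespace Pool.Agent.Q32.Idx

open Complex

/-- the phase `exp (i ϑ(t))`, with `ϑ(t) = arg Γ(1/4 + i t / 2) - (t / 2) log π` -/
noncomputable def phase (t : ℝ) : ℂ :=
  Gamma (1 / 4 + I * t / 2) / ‖Gamma (1 / 4 + I * t / 2)‖ * cexp (-(I * (t / 2) * Real.log Real.pi))

/-- Hardy's function `Z(t) = exp (i ϑ(t)) ζ(1/2 + i t)`, a real function (see the theorem) -/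
noncomputable def Z (t : ℝ) : ℝ := (phase t * riemannZeta (1 / 2 + I * t)).re

/-- the multiplicity of `s` as a zero of zeta -/
noncomputable def mult (s : ℂ) : ℕ := analyticOrderNatAt riemannZeta s

/-- the nontrivial zeros of zeta with ordinate in `(T₁, T₂]` -/
def zeros (T₁ T₂ : ℝ) : Set ℂ :=
  {s : ℂ | riemannZeta s = 0 ∧ 0 < s.re ∧ s.re < 1 ∧ T₁ < s.im ∧ s.im ≤ T₂}

/-- the number of nontrivial zeros with ordinate in `(T₁, T₂]`, counted with multiplicity -/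
noncomputable def N (T₁ T₂ : ℝ) : ℕ := ∑ᶠ s ∈ zeros T₁ T₂, mult s

/-- the simple real zeros of `Z` in `(T₁, T₂]` -/
def simpleZeros (T₁ T₂ : ℝ) : Set ℝ := {t : ℝ | T₁ < t ∧ t ≤ T₂ ∧ Z t = 0 ∧ deriv Z t ≠ 0}

/-- the constant `c(h) = h/2 + cot(h/√2)/√2`; `c(1) = 1.3274...` -/
noncomputable def c (h : ℝ) : ℝ := h / 2 + Real.cot (h / Real.sqrt 2) / Real.sqrt 2

end Pool.Agent.Q32.Idx
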